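import Pool.Agent.Helper68.SG2.GoalsT
import Pool.Agent.Helper65.SG.NQN

/-!
# Project SG stage 2 (MP_a41896_nt), packet NQNT: naturality of the auxiliary function
-/

set_option autoImplicit false

namespace Pool.Agent.Helper43.SG2

open Pool.Agent.Helper42.SG Pool.Agent.Helper65.SG Pool.Agent.Helper65.SGT
open Pool.Agent.Helper68.SG2

theorem t_NQNT : Pool.Agent.Helper68.SG2.NQNT := by
  intro K _ T W n M δ e c A A' _ _ _ _ φ X Ψ X' Ψ' h
  unfold P0T PT
  rw [map_sum]
  refine Finset.sum_congr rfl fun α _ => ?_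
  rw [map_mul, map_mul, map_prod, map_prod, φ.commutes]
  congr 1
  · congr 1
    refine Finset.prod_congr rfl fun k _ => ?_
    have hk : k.val < 2 * n + 2 := by have := k.2; omega
    have hk2 : 2 * n + k.val % 2 < 2 * n + 2 := by have := Nat.mod_lt k.val (show 0 < 2 by omega); omega
    unfold blk
    by_cases ht : T (k.val % 2) = true
    · rw [if_pos ht, if_pos ht, if_neg (by simp), if_neg (by simp), map_mul, map_pow, map_pow,
        (h _ hk).1, (h _ hk2).1]
    · rw [if_neg ht, if_neg ht]
      have h1 := law_nat (bc_mapW φ W (k.val % 2)) (e (k.val / 2)) false (X k.val)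
        (X (2 * n + k.val % 2)) (Ψ k.val * Ψ (2 * n + k.val % 2))
      have h2 : (φ : A →+* A') (X k.val) = X' k.val := (h _ hk).1
      have h3 : (φ : A →+* A') (X (2 * n + k.val % 2)) = X' (2 * n + k.val % 2) := (h _ hk2).1
      have h4 : (φ : A →+* A') (Ψ k.val) = Ψ' k.val := (h _ hk).2
      have h5 : (φ : A →+* A') (Ψ (2 * n + k.val % 2)) = Ψ' (2 * n + k.val % 2) := (h _ hk2).2
      rw [map_mul, h2, h3, h4, h5] at h1
      rw [map_mul, map_mul, map_pow, map_pow, map_pow, (h _ hk).1]
      have h6 : φ (lawV (mapW A W) n e (fun _ => false) X Ψ k.val).1 =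
          (lawV (mapW A' W) n e (fun _ => false) X' Ψ' k.val).1 := h1.1
      have h7 : φ (lawV (mapW A W) n e (fun _ => false) X Ψ k.val).2 =
          (lawV (mapW A' W) n e (fun _ => false) X' Ψ' k.val).2 := h1.2
      rw [h6, h7]
  · refine Finset.prod_congr rfl fun k _ => ?_
    rw [map_pow, (h (2 * n + k.val) (by have := k.2; omega)).1]

end Pool.Agent.Helper43.SG2
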